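import Pool.Agent.H79.Drift.Stmts

/-!
# Drift theorem, row MON: elementary properties of `P`
-/

set_option autoImplicit false

namespace Pool.H79.Drift

open Pool.H79.Maze

theorem MON : MONStmt := by
  intro s ω hω
  obtain ⟨h0, h1⟩ := hω
  have m1 : ∀ h h' : ℤ × ℤ → ℝ, (∀ u, h u ≤ h' u) → ∀ u, s.P ω h u ≤ s.P ω h' u := by
    intro h h' hh u
    unfold Sys.P
    refine Finset.sum_le_sum fun I _ => mul_le_mul_of_nonneg_left ?_ (h0 I)
    split_ifs with hA
    · exact hh _
    · exact le_refl _
  have m2 : ∀ h : ℤ × ℤ → ℝ, (∀ u, 0 ≤ h u) → ∀ u, 0 ≤ s.P ω h u := by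
    intro h hh u
    unfold Sys.P
    refine Finset.sum_nonneg fun I _ => mul_nonneg (h0 I) ?_
    split_ifs with hA
    · exact hh _
    · exact le_refl _
  refine ⟨m1, ?_, ?_, ?_⟩
  · intro u
    unfold Sys.ka
    constructor
    · refine Finset.sum_nonneg fun I _ => mul_nonneg (h0 I) ?_
      split_ifs <;> norm_num
    · refine le_of_le_of_eq (Finset.sum_le_sum fun I _ => ?_) h1
      split_ifs
      · rw [mul_zero]
        exact h0 I
      · rw [mul_one]
  · intro h hh T
    induction T with
    | zero => exact fun u => hh u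
    | succ T ih =>
      intro u
      rw [Function.iterate_succ_apply']
      exact m2 _ ih u
  · intro T
    induction T with
    | zero =>
      intro u
      change s.P ω (fun _ => 1) u ≤ 1
      unfold Sys.P
      refine le_of_le_of_eq (Finset.sum_le_sum fun I _ => ?_) h1
      split_ifs
      · rw [mul_one]
      · rw [mul_zero]
        exact h0 I
    | succ T ih =>
      intro u
      have e1 : (s.P ω)^[T + 1 + 1] (fun _ => 1) u =
          s.P ω ((s.P ω)^[T + 1] (fun _ => 1)) u := by
        rw [Function.iterate_succ_apply']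
      have e2 : (s.P ω)^[T + 1] (fun _ => 1) u = s.P ω ((s.P ω)^[T] (fun _ => 1)) u := by
        rw [Function.iterate_succ_apply']
      rw [e1, e2]
      exact m1 _ _ ih u

end Pool.H79.Drift
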